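import Pool.Agent.Lib.MP_e7cc07_co.Small
import Pool.Agent.Lib.MP_e7cc07_co.Cover

/-!
# The formula `f(H,p,1) = C(n,p) - b(H,p)`

For an `r`-uniform hypergraph `H` on `n` vertices (in particular for the complete one), the formula
is proved for all `2 ≤ p ≤ r` with `r ≠ 2 p` such that `p ≤ 3`, or `r - p ≤ 3`, or
`r - p ≥ 2 ^ (p - 1) + 2`, or `p ≥ 2 ^ (r - p - 1) + 2`.
-/

namespace Pool.Agent.Results.MP_e7cc07_co.DegreeFormula

open Finset

/-- `H` is an `r`-uniform hypergraph on the vertex set `Fin n`. -/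
def Uniform {n : ℕ} (r : ℕ) (H : Finset (Finset (Fin n))) : Prop := ∀ E ∈ H, E.card = r

/-- The complete `r`-uniform hypergraph on `n` vertices. -/
def complete (n r : ℕ) : Finset (Finset (Fin n)) := univ.powersetCard r

/-- An orientation of `H`: each edge is given a bijection from its vertices to the `r` positions
(that is, a linear ordering of its vertices). -/
def Orientation {n : ℕ} (r : ℕ) (H : Finset (Finset (Fin n))) : Type :=
  (E : {E : Finset (Fin n) // E ∈ H}) → ({v : Fin n // v ∈ E.1} ≃ Fin r)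

/-- The set of positions taken by the vertices of `A` under the ordering `e` of the edge `E`. -/
def posSet {n r : ℕ} {E : Finset (Fin n)} (e : {v : Fin n // v ∈ E} ≃ Fin r)
    (A : Finset (Fin n)) : Finset (Fin r) :=
  univ.filter (fun i => ((e.symm i : {v : Fin n // v ∈ E}) : Fin n) ∈ A)

/-- The number of edges `E ⊇ A` in which `A` takes exactly the positions in `P`. -/
def deg {n r : ℕ} {H : Finset (Finset (Fin n))} (D : Orientation r H) (A : Finset (Fin n))
    (P : Finset (Fin r)) : ℕ :=
  (univ.filter (fun E : {E : Finset (Fin n) // E ∈ H} => A ⊆ E.1 ∧ posSet (D E) A = P)).card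

open Classical in
/-- `f(D,p,1)`: the number of `p`-sets of vertices all of whose degrees are at least `1`. -/
noncomputable def fD {n r : ℕ} {H : Finset (Finset (Fin n))} (D : Orientation r H) (p : ℕ) : ℕ :=
  ((univ.powersetCard p).filter
    (fun A : Finset (Fin n) => ∀ P : Finset (Fin r), P.card = p → 1 ≤ deg D A P)).card

/-- `f(H,p,1)`: the minimum of `f(D,p,1)` over all orientations `D` of `H`. -/
noncomputable def f {n : ℕ} (r : ℕ) (H : Finset (Finset (Fin n))) (p : ℕ) : ℕ :=
  sInf (Set.range (fun D : Orientation r H => fD D p))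

/-- `B` is a family of `p`-sets with a colouring by `C(r,p)` colours such that no edge, all of
whose `p`-subsets lie in `B`, has all its `p`-subsets of the same colour. -/
def GoodFamily {n : ℕ} (r : ℕ) (H : Finset (Finset (Fin n))) (p : ℕ)
    (B : Finset (Finset (Fin n))) : Prop :=
  (∀ A ∈ B, A.card = p) ∧ ∃ χ : Finset (Fin n) → Fin (r.choose p),
    ∀ E ∈ H, (∀ A ⊆ E, A.card = p → A ∈ B) →
      ¬ (∀ A ⊆ E, ∀ A' ⊆ E, A.card = p → A'.card = p → χ A = χ A')

/-- `b(H,p)`: the largest size of such a family. -/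
noncomputable def b {n : ℕ} (r : ℕ) (H : Finset (Finset (Fin n))) (p : ℕ) : ℕ :=
  sSup {k | ∃ B, GoodFamily r H p B ∧ B.card = k}

open Pool.Agent.Lib.MP_e7cc07_co

theorem posSet_card {n r : ℕ} {E : Finset (Fin n)} (e : {v : Fin n // v ∈ E} ≃ Fin r)
    (A : Finset (Fin n)) (hA : A ⊆ E) : (posSet e A).card = A.card := by
  symm
  refine Finset.card_bij (fun v hv => e ⟨v, hA hv⟩) ?_ ?_ ?_
  · intro v hv
    simp only [posSet, mem_filter, mem_univ, true_and, Equiv.symm_apply_apply]
    exact hv
  · intro v hv w hw h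
    have := e.injective h
    exact congrArg Subtype.val this
  · intro i hi
    simp only [posSet, mem_filter, mem_univ, true_and] at hi
    exact ⟨_, hi, by simp⟩

/-- The `p`-subset of `E` taking the positions `X`. -/
def atPos {n r : ℕ} {E : Finset (Fin n)} (e : {v : Fin n // v ∈ E} ≃ Fin r)
    (X : Finset (Fin r)) : Finset (Fin n) :=
  X.map (e.symm.toEmbedding.trans (Function.Embedding.subtype _))

theorem atPos_subset {n r : ℕ} {E : Finset (Fin n)} (e : {v : Fin n // v ∈ E} ≃ Fin r)
    (X : Finset (Fin r)) : atPos e X ⊆ E := by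
  intro v hv
  rw [atPos, Finset.mem_map] at hv
  obtain ⟨i, _, rfl⟩ := hv
  exact (e.symm i).2

theorem atPos_card {n r : ℕ} {E : Finset (Fin n)} (e : {v : Fin n // v ∈ E} ≃ Fin r)
    (X : Finset (Fin r)) : (atPos e X).card = X.card := by
  rw [atPos, Finset.card_map]

theorem mem_atPos {n r : ℕ} {E : Finset (Fin n)} (e : {v : Fin n // v ∈ E} ≃ Fin r)
    (X : Finset (Fin r)) (i : Fin r) :
    ((e.symm i : {v : Fin n // v ∈ E}) : Fin n) ∈ atPos e X ↔ i ∈ X := by
  rw [atPos, Finset.mem_map]
  constructor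
  · rintro ⟨k, hk, h⟩
    have h' : e.symm k = e.symm i := Subtype.ext h
    rwa [← e.symm.injective h']
  · intro h
    exact ⟨i, h, rfl⟩

theorem posSet_atPos {n r : ℕ} {E : Finset (Fin n)} (e : {v : Fin n // v ∈ E} ≃ Fin r)
    (X : Finset (Fin r)) (σ : Equiv.Perm (Fin r)) :
    posSet (e.trans σ) (atPos e X) = X.map σ.toEmbedding := by
  ext i
  simp only [posSet, mem_filter, mem_univ, true_and, Equiv.symm_trans_apply]
  rw [mem_atPos, Finset.mem_map_equiv]

theorem atPos_posSet {n r : ℕ} {E : Finset (Fin n)} (e : {v : Fin n // v ∈ E} ≃ Fin r)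
    (A : Finset (Fin n)) (hA : A ⊆ E) : atPos e (posSet e A) = A := by
  refine Finset.eq_of_subset_of_card_le ?_ ?_
  · intro v hv
    rw [atPos, Finset.mem_map] at hv
    obtain ⟨i, hi, rfl⟩ := hv
    simp only [posSet, mem_filter, mem_univ, true_and] at hi
    exact hi
  · rw [atPos_card, posSet_card e A hA]

/-- An edge has an ordering without hits unless all its `p`-subsets lie in `B` and have the same
colour. -/
theorem exists_order {n r p : ℕ} (hpr : p ≤ r) (hcov : Covered r p) (E : Finset (Fin n))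
    (hE : E.card = r) (B : Finset (Finset (Fin n))) (c : Finset (Fin n) → Finset (Fin r))
    (hc : ∀ A, (c A).card = p)
    (h : ∀ e : {v : Fin n // v ∈ E} ≃ Fin r, ∃ A ⊆ E, A.card = p ∧ A ∈ B ∧ posSet e A = c A) :
    (∀ A ⊆ E, A.card = p → A ∈ B) ∧
      (∀ A ⊆ E, ∀ A' ⊆ E, A.card = p → A'.card = p → c A = c A') := by
  classical
  have e0 : {v : Fin n // v ∈ E} ≃ Fin r :=
    Fintype.equivFinOfCardEq (by rw [Fintype.card_coe, hE])
  obtain ⟨hd, hex⟩ := cover_exact r p hpr (fun X => c (atPos e0 X)) (fun X _ => hc _)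
    ((univ.powersetCard p).filter (fun X => atPos e0 X ∈ B)) (Finset.filter_subset _ _) (by
      intro σ
      obtain ⟨A, hAE, hAp, hAB, hA⟩ := h (e0.trans σ)
      refine ⟨posSet e0 A, ?_, ?_⟩
      · rw [Finset.mem_filter, Finset.mem_powersetCard, posSet_card e0 A hAE, atPos_posSet e0 A hAE]
        exact ⟨⟨Finset.subset_univ _, hAp⟩, hAB⟩
      · rw [atPos_posSet e0 A hAE, ← hA, ← posSet_atPos e0, atPos_posSet e0 A hAE])
  have hB : ∀ A ⊆ E, A.card = p → A ∈ B := by
    intro A hAE hAp
    have h1 : posSet e0 A ∈ (univ : Finset (Fin r)).powersetCard p := by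
      rw [Finset.mem_powersetCard, posSet_card e0 A hAE]
      exact ⟨Finset.subset_univ _, hAp⟩
    rw [← hd, Finset.mem_filter, atPos_posSet e0 A hAE] at h1
    exact h1.2
  refine ⟨hB, ?_⟩
  intro A hAE A' hAE' hAp hAp'
  have h2 := exact_const r p hpr hcov _ hex (posSet e0 A) (posSet e0 A')
    (by rw [posSet_card e0 A hAE, hAp]) (by rw [posSet_card e0 A' hAE', hAp'])
  rw [atPos_posSet e0 A hAE, atPos_posSet e0 A' hAE'] at h2
  exact h2

theorem bdd {n : ℕ} (r : ℕ) (H : Finset (Finset (Fin n))) (p : ℕ) :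
    BddAbove {k | ∃ B, GoodFamily r H p B ∧ B.card = k} := by
  refine ⟨n.choose p, ?_⟩
  rintro k ⟨B, hB, rfl⟩
  have h1 : B ⊆ (univ : Finset (Fin n)).powersetCard p := by
    intro A hA
    rw [Finset.mem_powersetCard]
    exact ⟨Finset.subset_univ _, hB.1 A hA⟩
  have := Finset.card_le_card h1
  rwa [Finset.card_powersetCard, Finset.card_univ, Fintype.card_fin] at this

/-- The lower bound `f(D,p,1) ≥ C(n,p) - b(H,p)`. -/
theorem lower {n : ℕ} (r p : ℕ) (hpr : p ≤ r) (H : Finset (Finset (Fin n))) (hH : Uniform r H)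
    (D : Orientation r H) : n.choose p ≤ fD D p + b r H p := by
  classical
  obtain ⟨ι⟩ : Nonempty ({P : Finset (Fin r) // P.card = p} ≃ Fin (r.choose p)) := by
    refine ⟨Fintype.equivFinOfCardEq ?_⟩
    rw [Fintype.card_finset_len, Fintype.card_fin]
  set B : Finset (Finset (Fin n)) := (univ.powersetCard p).filter
    (fun A : Finset (Fin n) => ¬ ∀ P : Finset (Fin r), P.card = p → 1 ≤ deg D A P) with hB
  have hdef : ∀ A : Finset (Fin n), ∃ P : {P : Finset (Fin r) // P.card = p},
      A ∈ B → deg D A P.1 = 0 := by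
    intro A
    by_cases hA : A ∈ B
    · rw [hB, Finset.mem_filter] at hA
      have h2 := hA.2
      push Not at h2
      obtain ⟨P, hP, hP'⟩ := h2
      exact ⟨⟨P, hP⟩, fun _ => Nat.lt_one_iff.1 hP'⟩
    · refine ⟨⟨(Finset.univ : Finset (Fin r)).powersetCard p |>.toList.headI, ?_⟩,
        fun h => absurd h hA⟩
      obtain ⟨P, hP⟩ : ((Finset.univ : Finset (Fin r)).powersetCard p).Nonempty := by
        rw [Finset.powersetCard_nonempty, Finset.card_univ, Fintype.card_fin]
        exact hpr
      have hne : ((Finset.univ : Finset (Fin r)).powersetCard p).toList ≠ [] := by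
        rw [Ne, Finset.toList_eq_nil]
        rintro h
        rw [h] at hP
        simp at hP
      have := List.head_mem hne
      rw [Finset.mem_toList, Finset.mem_powersetCard] at this
      cases hl : ((Finset.univ : Finset (Fin r)).powersetCard p).toList with
      | nil => exact absurd hl hne
      | cons Q l =>
        simp only [hl, List.head_cons] at this
        exact this.2
  choose g hg using hdef
  have hgood : GoodFamily r H p B := by
    refine ⟨fun A hA => ?_, fun A => ι (g A), ?_⟩
    · rw [hB, Finset.mem_filter, Finset.mem_powersetCard] at hA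
      exact hA.1.2
    · intro E hE hall hmono
      obtain ⟨A1, hA1⟩ : (E.powersetCard p).Nonempty := by
        rw [Finset.powersetCard_nonempty, hH E hE]
        exact hpr
      rw [Finset.mem_powersetCard] at hA1
      set A0 := atPos (D ⟨E, hE⟩) (g A1).1 with hA0
      have h0E : A0 ⊆ E := atPos_subset _ _
      have h0p : A0.card = p := by rw [hA0, atPos_card, (g A1).2]
      have h1 : g A0 = g A1 := ι.injective (hmono A0 h0E A1 hA1.1 h0p hA1.2)
      have h2 := hg A0 (hall A0 h0E h0p)
      rw [h1, deg, Finset.card_eq_zero, Finset.filter_eq_empty_iff] at h2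
      refine h2 (Finset.mem_univ ⟨E, hE⟩) ⟨h0E, ?_⟩
      have h3 := posSet_atPos (D ⟨E, hE⟩) (g A1).1 (Equiv.refl _)
      simpa using h3
  have h1 : B.card ≤ b r H p := le_csSup (bdd r H p) ⟨B, hgood, rfl⟩
  have h2 : fD D p + B.card = n.choose p := by
    rw [fD, hB, Finset.card_filter_add_card_filter_not, Finset.card_powersetCard,
      Finset.card_univ, Fintype.card_fin]
  omega

/-- The upper bound. -/
theorem upper {n : ℕ} (r p : ℕ) (hpr : p ≤ r) (hcov : Covered r p)
    (H : Finset (Finset (Fin n))) (hH : Uniform r H) :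
    ∃ D : Orientation r H, fD D p + b r H p ≤ n.choose p := by
  classical
  obtain ⟨ι⟩ : Nonempty ({P : Finset (Fin r) // P.card = p} ≃ Fin (r.choose p)) := by
    refine ⟨Fintype.equivFinOfCardEq ?_⟩
    rw [Fintype.card_finset_len, Fintype.card_fin]
  have hne : {k | ∃ B, GoodFamily r H p B ∧ B.card = k}.Nonempty := by
    refine ⟨0, ∅, ⟨by simp, fun _ => ⟨0, Nat.choose_pos hpr⟩, ?_⟩, rfl⟩
    intro E hE hall _
    obtain ⟨A1, hA1⟩ : (E.powersetCard p).Nonempty := by
      rw [Finset.powersetCard_nonempty, hH E hE]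
      exact hpr
    rw [Finset.mem_powersetCard] at hA1
    exact absurd (hall A1 hA1.1 hA1.2) (Finset.notMem_empty _)
  obtain ⟨B, ⟨hBp, χ, hχ⟩, hBb⟩ := Nat.sSup_mem hne (bdd r H p)
  have hex : ∀ E : {E : Finset (Fin n) // E ∈ H}, ∃ e : {v : Fin n // v ∈ E.1} ≃ Fin r,
      ∀ A ⊆ E.1, A.card = p → A ∈ B → posSet e A ≠ (ι.symm (χ A)).1 := by
    intro E
    by_contra hcon
    push Not at hcon
    have h1 := exists_order hpr hcov E.1 (hH E.1 E.2) B (fun A => (ι.symm (χ A)).1)
      (fun A => (ι.symm (χ A)).2) hcon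
    refine hχ E.1 E.2 h1.1 ?_
    intro A hA A' hA' hAp hAp'
    have h2 := h1.2 A hA A' hA' hAp hAp'
    exact ι.symm.injective (Subtype.ext h2)
  choose D hD using hex
  refine ⟨D, ?_⟩
  have h1 : (((univ : Finset (Fin n)).powersetCard p).filter
      (fun A : Finset (Fin n) => ∀ P : Finset (Fin r), P.card = p → 1 ≤ deg D A P)).card
      + B.card ≤ ((univ : Finset (Fin n)).powersetCard p).card := by
    rw [← Finset.card_union_of_disjoint]
    · refine Finset.card_le_card ?_
      intro A hA
      rw [Finset.mem_union] at hA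
      rcases hA with hA | hA
      · exact (Finset.mem_filter.1 hA).1
      · rw [Finset.mem_powersetCard]
        exact ⟨Finset.subset_univ _, hBp A hA⟩
    · rw [Finset.disjoint_left]
      intro A hA hAB
      rw [Finset.mem_filter] at hA
      have h2 := hA.2 (ι.symm (χ A)).1 (ι.symm (χ A)).2
      rw [deg, Nat.one_le_iff_ne_zero, Ne, Finset.card_eq_zero] at h2
      apply h2
      rw [Finset.filter_eq_empty_iff]
      rintro E _ ⟨h3, h4⟩
      exact hD E A h3 (hBp A hAB) hAB h4
  rw [Finset.card_powersetCard, Finset.card_univ, Fintype.card_fin] at h1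
  have h3 : b r H p = B.card := hBb.symm
  rw [h3, fD]
  exact h1

/-- The formula for all uniform hypergraphs, in particular for the complete ones. -/
theorem result (n r p : ℕ) (hpr : p ≤ r)
    (h : (r ≠ 2 * p ∧ (p ≤ 3 ∨ r ≤ p + 3)) ∨ 2 ^ (p - 1) + 2 ≤ r - p ∨
      2 ^ (r - p - 1) + 2 ≤ p) :
    (∀ H : Finset (Finset (Fin n)), Uniform r H → f r H p + b r H p = n.choose p) ∧
    f r (complete n r) p = n.choose p - b r (complete n r) p := by
  have key : ∀ H : Finset (Finset (Fin n)), Uniform r H → f r H p + b r H p = n.choose p := by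
    intro H hH
    obtain ⟨D, hD⟩ := upper r p hpr h H hH
    have h1 : f r H p ≤ fD D p := Nat.sInf_le ⟨D, rfl⟩
    have h2 : n.choose p ≤ f r H p + b r H p := by
      obtain ⟨D', hD'⟩ : ∃ D' : Orientation r H, fD D' p = f r H p := by
        have := Nat.sInf_mem (s := Set.range (fun D : Orientation r H => fD D p)) ⟨_, D, rfl⟩
        exact this
      rw [← hD']
      exact lower r p hpr H hH D'
    omega
  refine ⟨key, ?_⟩
  have h1 := key (complete n r) (by
    intro E hE
    rw [complete, Finset.mem_powersetCard] at hE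
    exact hE.2)
  omega

end Pool.Agent.Results.MP_e7cc07_co.DegreeFormula
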